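import Mathlib

/-!
# Families of 4-sets blocking all `(2,2)`-acceptable Hamilton paths, of size less than `C(n-2,2)`

For `n = 6` the five 4-subsets of a 5-set block every Hamilton path, and `5 < C(4,2)`. For `n = 7`
the nine 4-sets with two elements in each of two disjoint 3-sets block every Hamilton path, and
`9 < C(5,2)`.
-/

set_option autoImplicit false

namespace Pool.Agent.Results.MP_716318_co.SixAndSeven

/-- The Hamilton path `v 0, v 1, …, v (n-1)` of `K_n` is `(2,2)`-acceptable with respect to `F`: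
no two vertex-disjoint edges `{v i, v (i+1)}`, `{v j, v (j+1)}` of the path (`i + 1 < j`) have
their union in `F`. -/
def IsAcceptable {n : ℕ} (F : Finset (Finset (Fin n))) (v : Equiv.Perm (Fin n)) : Prop :=
  ∀ (i j : ℕ) (hi : i + 1 < n) (hj : j + 1 < n), i + 1 < j →
    ({v ⟨i, by omega⟩, v ⟨i + 1, hi⟩, v ⟨j, by omega⟩, v ⟨j + 1, hj⟩} : Finset (Fin n)) ∉ F

/-- the 4-subsets of a 5-set -/
def F6 : Finset (Finset (Fin 6)) := (Finset.univ.erase 5).powersetCard 4

/-- the 4-sets with two elements in `{1, 2, 3}` and two elements in `{4, 5, 6}` -/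
def F7 : Finset (Finset (Fin 7)) :=
  ((Finset.univ.erase 0).powersetCard 4).filter fun S => (S ∩ {1, 2, 3}).card = 2

lemma four_card {n : ℕ} (v : Equiv.Perm (Fin n)) (a b c d : Fin n) (h1 : a ≠ b) (h2 : a ≠ c)
    (h3 : a ≠ d) (h4 : b ≠ c) (h5 : b ≠ d) (h6 : c ≠ d) :
    ({v a, v b, v c, v d} : Finset (Fin n)).card = 4 := by
  rw [Finset.card_insert_of_notMem, Finset.card_insert_of_notMem, Finset.card_insert_of_notMem,
    Finset.card_singleton]
  · simpa using h6
  · simp only [Finset.mem_insert, Finset.mem_singleton, not_or]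
    exact ⟨fun h => h4 (v.injective h), fun h => h5 (v.injective h)⟩
  · simp only [Finset.mem_insert, Finset.mem_singleton, not_or]
    exact ⟨fun h => h1 (v.injective h), fun h => h2 (v.injective h), fun h => h3 (v.injective h)⟩

lemma block6 (v : Equiv.Perm (Fin 6)) : ¬ IsAcceptable F6 v := by
  intro h
  have key : ∀ p : Fin 6, ∃ i : Fin 5, ∃ j : Fin 5, i.val + 1 < j.val ∧ i.castSucc ≠ p ∧
      i.succ ≠ p ∧ j.castSucc ≠ p ∧ j.succ ≠ p := by decide
  obtain ⟨i, j, hij, h1, h2, h3, h4⟩ := key (v.symm 5)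
  refine h i.val j.val (by omega) (by omega) hij ?_
  have e1 : (⟨i.val, by omega⟩ : Fin 6) = i.castSucc := rfl
  have e2 : (⟨i.val + 1, by omega⟩ : Fin 6) = i.succ := rfl
  have e3 : (⟨j.val, by omega⟩ : Fin 6) = j.castSucc := rfl
  have e4 : (⟨j.val + 1, by omega⟩ : Fin 6) = j.succ := rfl
  rw [e1, e2, e3, e4]
  have hne : ∀ q : Fin 6, q ≠ v.symm 5 → v q ≠ 5 := by
    intro q hq h
    exact hq (by rw [← h, Equiv.symm_apply_apply])
  unfold F6
  rw [Finset.mem_powersetCard]
  refine ⟨?_, ?_⟩
  · intro x hx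
    rw [Finset.mem_erase]
    simp only [Finset.mem_insert, Finset.mem_singleton] at hx
    refine ⟨?_, Finset.mem_univ _⟩
    rcases hx with rfl | rfl | rfl | rfl
    · exact hne _ h1
    · exact hne _ h2
    · exact hne _ h3
    · exact hne _ h4
  · have a1 : i.castSucc.val = i.val := rfl
    have a2 : i.succ.val = i.val + 1 := rfl
    have a3 : j.castSucc.val = j.val := rfl
    have a4 : j.succ.val = j.val + 1 := rfl
    apply four_card <;> intro hh <;> have := congrArg Fin.val hh <;> omega

/-- the type of a vertex: `0` for the vertex `0`, `1` for `1, 2, 3`, and `2` for `4, 5, 6` -/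
def ty (a : Fin 7) : Fin 3 := if a = 0 then 0 else if a.val ≤ 3 then 1 else 2

lemma words : ∀ t : Fin 7 → Fin 3, (Finset.univ.filter fun i => t i = 0).card = 1 →
    (Finset.univ.filter fun i => t i = 1).card = 3 →
    ∃ i : Fin 6, ∃ j : Fin 6, i.val + 1 < j.val ∧ t i.castSucc ≠ 0 ∧ t i.succ ≠ 0 ∧
      t j.castSucc ≠ 0 ∧ t j.succ ≠ 0 ∧
      (if t i.castSucc = 1 then 1 else 0) + (if t i.succ = 1 then 1 else 0) +
        (if t j.castSucc = 1 then 1 else 0) + (if t j.succ = 1 then 1 else 0) = 2 := by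
  decide +kernel

lemma card_ty (v : Equiv.Perm (Fin 7)) (c : Fin 3) :
    (Finset.univ.filter fun i => ty (v i) = c).card = (Finset.univ.filter fun i => ty i = c).card := by
  rw [← Finset.card_map v.toEmbedding]
  congr 1
  ext a
  simp only [Finset.mem_map, Finset.mem_filter, Finset.mem_univ, true_and,
    Equiv.coe_toEmbedding]
  constructor
  · rintro ⟨i, hi, rfl⟩; exact hi
  · intro ha; exact ⟨v.symm a, by rw [Equiv.apply_symm_apply]; exact ha, by simp⟩

lemma block7 (v : Equiv.Perm (Fin 7)) : ¬ IsAcceptable F7 v := by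
  intro h
  obtain ⟨i, j, hij, h1, h2, h3, h4, h5⟩ := words (fun i => ty (v i))
    (by rw [card_ty]; decide) (by rw [card_ty]; decide)
  refine h i.val j.val (by omega) (by omega) hij ?_
  have e1 : (⟨i.val, by omega⟩ : Fin 7) = i.castSucc := rfl
  have e2 : (⟨i.val + 1, by omega⟩ : Fin 7) = i.succ := rfl
  have e3 : (⟨j.val, by omega⟩ : Fin 7) = j.castSucc := rfl
  have e4 : (⟨j.val + 1, by omega⟩ : Fin 7) = j.succ := rfl
  rw [e1, e2, e3, e4]
  have a1 : i.castSucc.val = i.val := rfl
  have a2 : i.succ.val = i.val + 1 := rfl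
  have a3 : j.castSucc.val = j.val := rfl
  have a4 : j.succ.val = j.val + 1 := rfl
  have n12 : v i.castSucc ≠ v i.succ := fun hh => by
    have := congrArg Fin.val (v.injective hh); omega
  have n13 : v i.castSucc ≠ v j.castSucc := fun hh => by
    have := congrArg Fin.val (v.injective hh); omega
  have n14 : v i.castSucc ≠ v j.succ := fun hh => by
    have := congrArg Fin.val (v.injective hh); omega
  have n23 : v i.succ ≠ v j.castSucc := fun hh => by
    have := congrArg Fin.val (v.injective hh); omega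
  have n24 : v i.succ ≠ v j.succ := fun hh => by
    have := congrArg Fin.val (v.injective hh); omega
  have n34 : v j.castSucc ≠ v j.succ := fun hh => by
    have := congrArg Fin.val (v.injective hh); omega
  have final : ∀ a b c d : Fin 7, a ≠ b → a ≠ c → a ≠ d → b ≠ c → b ≠ d → c ≠ d →
      ty a ≠ 0 → ty b ≠ 0 → ty c ≠ 0 → ty d ≠ 0 →
      (if ty a = 1 then 1 else 0) + (if ty b = 1 then 1 else 0) +
        (if ty c = 1 then 1 else 0) + (if ty d = 1 then 1 else 0) = 2 →
      ({a, b, c, d} : Finset (Fin 7)) ∈ F7 := by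
    decide +kernel
  exact final _ _ _ _ n12 n13 n14 n23 n24 n34 h1 h2 h3 h4 h5

/-- There is a family of `5 < C(4,2)` four-element subsets of a 6-set, and a family of
`9 < C(5,2)` four-element subsets of a 7-set, with respect to which no Hamilton path is
`(2,2)`-acceptable. In particular it is not true that for all `n ≥ 4` and all families `F` of
fewer than `C(n-2,2)` four-element subsets of an `n`-set some Hamilton path of `K_n` is
`(2,2)`-acceptable with respect to `F`. -/
theorem result :
    (∃ F : Finset (Finset (Fin 6)), (∀ S ∈ F, S.card = 4) ∧ F.card = 5 ∧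
      ∀ v : Equiv.Perm (Fin 6), ¬ IsAcceptable F v) ∧
    (∃ F : Finset (Finset (Fin 7)), (∀ S ∈ F, S.card = 4) ∧ F.card = 9 ∧
      ∀ v : Equiv.Perm (Fin 7), ¬ IsAcceptable F v) ∧
    ¬ ∀ n : ℕ, 4 ≤ n → ∀ F : Finset (Finset (Fin n)), (∀ S ∈ F, S.card = 4) →
      F.card < (n - 2).choose 2 → ∃ v : Equiv.Perm (Fin n), IsAcceptable F v := by
  have c6 : ∀ S ∈ F6, S.card = 4 := fun S hS => (Finset.mem_powersetCard.1 hS).2
  have c7 : ∀ S ∈ F7, S.card = 4 := fun S hS =>
    (Finset.mem_powersetCard.1 (Finset.mem_filter.1 hS).1).2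
  refine ⟨⟨F6, c6, by decide +kernel, block6⟩, ⟨F7, c7, by decide +kernel, block7⟩, ?_⟩
  intro h
  obtain ⟨v, hv⟩ := h 6 (by norm_num) F6 c6 (by decide +kernel)
  exact block6 v hv

end Pool.Agent.Results.MP_716318_co.SixAndSeven
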